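import Pool.Agent.GLE.StmtsA

/-! Row COE of squad GLE: the coefficients of the Faber polynomials are polynomials. -/

namespace Pool.Agent.GLE.H24

open Polynomial Pool.Agent.GLE

section nat
variable {K K' : Type} [CommRing K] [Algebra ℝ K] [CommRing K'] [Algebra ℝ K']

lemma sqc_map (φ : K →ₐ[ℝ] K') (s : ℕ → K) (n : ℕ) :
    φ (sqc s n) = sqc (fun k => φ (s k)) n := by
  induction n using Nat.strong_induction_on with
  | _ n ih =>
    cases n with
    | zero => simp [sqc]
    | succ n =>
      rw [sqc, sqc, map_smul, map_sub, map_sum]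
      have h : ∀ i : Fin n, φ (sqc s ((i : ℕ) + 1) * sqc s (n - i)) =
          sqc (fun k => φ (s k)) ((i : ℕ) + 1) * sqc (fun k => φ (s k)) (n - i) := by
        intro i
        rw [map_mul, ih _ (by omega), ih _ (by omega)]
      rw [Finset.sum_congr rfl fun i _ => h i]

lemma al_map (φ : K →ₐ[ℝ] K') (c : K) (L : ℕ) : ∀ n, φ (al c L n) = al (φ c) L n := by
  induction L with
  | zero => intro n; by_cases h : n = 0 <;> simp [al, h]
  | succ L ih =>
    intro n
    rw [al, al, sqc_map]
    have : (fun k => φ ((if k % 2 = 0 then al c L (k / 2) else 0) - (if k = 2 then c else 0))) =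
        fun k => (if k % 2 = 0 then al (φ c) L (k / 2) else 0) - (if k = 2 then φ c else 0) := by
      funext k
      rw [map_sub]
      by_cases h1 : k % 2 = 0 <;> by_cases h2 : k = 2 <;> simp [h1, h2, ih]
    rw [this]

lemma Fb_map (φ : K →ₐ[ℝ] K') (c x : K) (L n : ℕ) :
    φ (Fb c x L n) = Fb (φ c) (φ x) L n := by
  induction n using Nat.strong_induction_on with
  | _ n ih =>
    cases n with
    | zero => simp [Fb]
    | succ n =>
      rw [Fb, Fb, map_sub, map_sub, map_mul, map_mul, map_sum, ih n (by omega), al_map, map_natCast]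
      have h : ∀ i : Fin n, φ (al c L ((i : ℕ) + 1) * Fb c x L (n - i)) =
          al (φ c) L ((i : ℕ) + 1) * Fb (φ c) (φ x) L (n - i) := by
        intro i
        rw [map_mul, al_map, ih _ (by omega)]
      rw [Finset.sum_congr rfl fun i _ => h i]

end nat

lemma sqc_deg (s : ℕ → ℝ[X]) (hs : ∀ n, 2 * (s n).natDegree ≤ n) (n : ℕ) :
    2 * (sqc s n).natDegree ≤ n := by
  induction n using Nat.strong_induction_on with
  | _ n ih =>
    cases n with
    | zero => simp [sqc]
    | succ n =>
      rw [sqc]
      have h1 : (∑ i : Fin n, sqc s ((i : ℕ) + 1) * sqc s (n - i)).natDegree ≤ (n + 1) / 2 := by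
        refine natDegree_sum_le_of_forall_le _ _ fun i _ => ?_
        have h2 := ih ((i : ℕ) + 1) (by omega)
        have h3 := ih (n - i) (by omega)
        have h4 : (sqc s ((i : ℕ) + 1) * sqc s (n - i)).natDegree ≤ _ := natDegree_mul_le
        have := i.2
        omega
      have h5 := hs (n + 1)
      have h6 := natDegree_sub_le (s (n + 1)) (∑ i : Fin n, sqc s ((i : ℕ) + 1) * sqc s (n - i))
      have h7 := natDegree_smul_le (1 / 2 : ℝ)
        (s (n + 1) - ∑ i : Fin n, sqc s ((i : ℕ) + 1) * sqc s (n - i))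
      have h8 : max (s (n + 1)).natDegree
          (∑ i : Fin n, sqc s ((i : ℕ) + 1) * sqc s (n - i)).natDegree ≤ (n + 1) / 2 :=
        max_le (by omega) h1
      omega

lemma al_deg (L : ℕ) : ∀ n, 2 * (al (X : ℝ[X]) L n).natDegree ≤ n := by
  induction L with
  | zero => intro n; by_cases h : n = 0 <;> simp [al, h]
  | succ L ih =>
    intro n
    rw [al]
    refine sqc_deg _ (fun k => ?_) n
    have h1 : (if k % 2 = 0 then al (X : ℝ[X]) L (k / 2) else 0).natDegree ≤ k / 2 := by
      split_ifs
      · have := ih (k / 2)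
        omega
      · simp
    have h2 : (if k = 2 then (X : ℝ[X]) else 0).natDegree ≤ k / 2 := by
      split_ifs with h
      · subst h; simp
      · simp
    have h3 := natDegree_sub_le (if k % 2 = 0 then al (X : ℝ[X]) L (k / 2) else 0)
      (if k = 2 then (X : ℝ[X]) else 0)
    have h4 := max_le h1 h2
    omega

lemma Fb_monic (p : ℝ[X]) (q L n : ℕ) (hp : p.Monic) (hq : p.natDegree = q) (h1 : 1 ≤ q) :
    (Fb (X : ℝ[X]) p L n).Monic ∧ (Fb (X : ℝ[X]) p L n).natDegree = n * q := by
  induction n using Nat.strong_induction_on with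
  | _ n ih =>
    cases n with
    | zero => simp [Fb]
    | succ n =>
      rw [Fb]
      obtain ⟨hm, hd⟩ := ih n (by omega)
      have hM : (p * Fb X p L n).Monic := hp.mul hm
      have hD : (p * Fb X p L n).natDegree = (n + 1) * q := by
        rw [hp.natDegree_mul hm, hq, hd]; ring
      have hpos : 0 < (n + 1) * q := by positivity
      have hS : (∑ i : Fin n, al (X : ℝ[X]) L ((i : ℕ) + 1) * Fb X p L (n - i)).natDegree <
          (n + 1) * q := by
        refine lt_of_le_of_lt (natDegree_sum_le_of_forall_le (n := (n + 1) * q - 1) _ _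
          fun i _ => ?_) (by omega)
        have h2 := (ih (n - i) (by omega)).2
        have h3 := al_deg L ((i : ℕ) + 1)
        have h4 : (al (X : ℝ[X]) L ((i : ℕ) + 1) * Fb X p L (n - i)).natDegree ≤ _ :=
          natDegree_mul_le
        rw [h2] at h4
        obtain ⟨m, hm'⟩ : ∃ m, n = m + i := ⟨n - i, by have := i.2; omega⟩
        have h5 : (n + 1) * q = (n - i) * q + ((i : ℕ) + 1) * q := by
          have : n + 1 = (n - i) + (i + 1) := by have := i.2; omega
          calc (n + 1) * q = ((n - i) + (i + 1)) * q := by rw [← this]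
            _ = _ := by ring
        have h6 : (i : ℕ) + 1 ≤ ((i : ℕ) + 1) * q := Nat.le_mul_of_pos_right _ h1
        omega
      have hA : (((n + 1 : ℕ) : ℝ[X]) * al (X : ℝ[X]) L (n + 1)).natDegree < (n + 1) * q := by
        have h3 := al_deg L (n + 1)
        have h4 : (((n + 1 : ℕ) : ℝ[X]) * al (X : ℝ[X]) L (n + 1)).natDegree ≤ _ :=
          natDegree_mul_le
        rw [natDegree_natCast] at h4
        have h6 : n + 1 ≤ (n + 1) * q := Nat.le_mul_of_pos_right _ h1
        omega
      have hM1 : (p * Fb X p L n - ∑ i : Fin n, al (X : ℝ[X]) L ((i : ℕ) + 1) *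
          Fb X p L (n - i)).Monic := hM.sub_of_left (degree_lt_degree (by rw [hD]; exact hS))
      have hD1 : (p * Fb X p L n - ∑ i : Fin n, al (X : ℝ[X]) L ((i : ℕ) + 1) *
          Fb X p L (n - i)).natDegree = (n + 1) * q := by
        rw [natDegree_sub_eq_left_of_natDegree_lt (by rw [hD]; exact hS), hD]
      refine ⟨hM1.sub_of_left (degree_lt_degree (by rw [hD1]; exact hA)), ?_⟩
      rw [natDegree_sub_eq_left_of_natDegree_lt (by rw [hD1]; exact hA), hD1]

theorem coe : CoeStmt :=
  ⟨al_deg, fun z p L n => by rw [Fb_map, aeval_X], fun p q L n hp hq h1 => Fb_monic p q L n hp hq h1⟩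

end Pool.Agent.GLE.H24
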